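import Mathlib

/-!
# Sections of curves with bad, potentially good reduction, and of isotrivial curves

The problem (Q1, the open part of (i)): for `Y` proper every class of homomorphisms
`π₁(X) → π₁(Y)` over `G_K` without open image comes from a constant morphism.

The theorem is stated for the fundamental groups `π₁(X) → G_K ← π₁(Y)`, `G_K → G_k`, together
with the published theorems about them which the proof uses (structure `Situation`).  It applies
in two geometric situations.

* **(G)** `k` is finitely generated over `ℚ`, `K/k` is a finitely generated regular extension,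
  `Y/K` is a proper hyperbolic isotrivial curve which does not become constant over `K k̄`
  (`k̄` the algebraic closure of `k` in `K̄`), so that `G_(K k̄)` acts on `Δ = π₁(Y_K̄)` through a
  finite nontrivial group `Γ` of outer automorphisms, with fixed field `M`; `Y_M = C ×_k̄ M` for
  a curve `C` over `k̄`.  `X` is `Spec K` or a smooth geometrically connected variety (a curve)
  over `K` such that no finite étale cover of a smooth projective model `Z` of the function
  field of `X_M` over `k̄` has a nonzero first Betti number (for example, `Z` is simply connected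
  or rational).  For `X = Spec K`, `K = k(t)` this is the case for the twists `t y ^ m = f(x)`.
* **(L)** `K` is the fraction field of a henselian discrete valuation ring with residue field
  `k` finitely generated over `ℚ` (for example the henselisation of a finitely generated field at
  a divisorial place), `Y/K` is a proper hyperbolic curve which does not have good reduction but
  has good reduction over a finite extension of `K`, and `X = Spec K`.

In (L) the map (6) is surjective but not injective (all `K`-points with the same reduction give the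
same class); in (G) it is known to be injective, so that it is bijective.

In situation (L) the last part of the theorem turns to an arbitrary finitely generated field `K'`
with henselisation `K` at a place `v`, and a curve `Y'/K'` with `Y' ×_K' K = Y`: all homomorphisms
`π₁(X') → π₁(Y')` over `G_K'` are geometric at `v`, and there is none if `Y(K)` is empty.
-/

namespace Pool.Agent.Results.MP_307582_ag.PotentiallyGoodSections

open Subgroup

section Defs

variable {A B G G₀ : Type} [Group A] [TopologicalSpace A] [Group B] [TopologicalSpace B]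
  [Group G] [Group G₀]

/-- For profinite groups `A`, `B` over `G` (such as `π₁(X)`, `π₁(Y)` over `G_K`): the continuous
homomorphisms `φ : A → B` with `pB ∘ φ = pA`. -/
structure HomOver (pA : A →* G) (pB : B →* G) where
  hom : A →* B
  cont : Continuous hom
  comm : ∀ a, pB (hom a) = pA a

/-- Two homomorphisms over `G` are identified when they differ by conjugation by an element of
`ker pB` (such as `π₁(Y_K̄)`). -/
def outSetoid (pA : A →* G) (pB : B →* G) : Setoid (HomOver pA pB) where
  r φ ψ := ∃ δ ∈ pB.ker, ∀ a, ψ.hom a = δ * φ.hom a * δ⁻¹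
  iseqv := by
    refine ⟨fun φ => ⟨1, one_mem _, fun a => by simp⟩, ?_, ?_⟩
    · rintro φ ψ ⟨δ, hδ, h⟩
      refine ⟨δ⁻¹, inv_mem hδ, fun a => ?_⟩
      rw [h a]; group
    · rintro φ ψ χ ⟨δ, hδ, h⟩ ⟨ε, hε, k⟩
      refine ⟨ε * δ, mul_mem hε hδ, fun a => ?_⟩
      rw [k a, h a]; group

/-- `Hom^out_G(A, B)`, as in (6) of the problem. -/
abbrev HomOut (pA : A →* G) (pB : B →* G) : Type := Quotient (outSetoid pA pB)

/-- The part of the centraliser of `Δ = ker pY` that lies over the kernel of `res : G_K → G_k`.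
As `Δ` has trivial centre, `pY` maps it isomorphically onto the kernel of the outer action of
`ker res` on `Δ`. -/
def cen (pY : B →* G) (res : G →* G₀) : Subgroup B :=
  Subgroup.centralizer (pY.ker : Set B) ⊓ (res.comp pY).ker

end Defs

section Aux

variable {B G G₀ : Type} [Group B] [Group G] [Group G₀]

theorem cen_normal (pY : B →* G) (res : G →* G₀) : (cen pY res).Normal := by
  unfold cen
  infer_instance

theorem cen_comm {pY : B →* G} {res : G →* G₀} {c x : B} (hc : c ∈ cen pY res)
    (hx : x ∈ pY.ker) : x * c = c * x :=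
  (Subgroup.mem_centralizer_iff.1 hc.1) x hx

theorem cen_res {pY : B →* G} {res : G →* G₀} {c : B} (hc : c ∈ cen pY res) :
    res (pY c) = 1 := hc.2

/-- the index of a subgroup `V` of `B` in terms of its image and its intersection with the kernel -/
theorem index_ne_zero_of_map (pY : B →* G) (V : Subgroup B) (h1 : (V.map pY).index ≠ 0)
    (h2 : V.relIndex pY.ker ≠ 0) : V.index ≠ 0 := by
  classical
  have : Finite (G ⧸ V.map pY) := by
    have := Subgroup.fintypeOfIndexNeZero h1
    exact Finite.of_fintype _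
  have : Finite (pY.ker ⧸ V.subgroupOf pY.ker) := by
    have := Subgroup.fintypeOfIndexNeZero h2
    exact Finite.of_fintype _
  -- representatives
  let lift : G ⧸ V.map pY → B := fun t =>
    if h : ∃ b : B, (QuotientGroup.mk (pY b) : G ⧸ V.map pY) = t then h.choose else 1
  have hlift : ∀ b : B, (QuotientGroup.mk (pY (lift (QuotientGroup.mk (pY b)))) : G ⧸ V.map pY) =
      QuotientGroup.mk (pY b) := by
    intro b
    have h : ∃ b' : B, (QuotientGroup.mk (pY b') : G ⧸ V.map pY) = QuotientGroup.mk (pY b) :=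
      ⟨b, rfl⟩
    simp only [lift, dif_pos h]
    exact h.choose_spec
  let f : (G ⧸ V.map pY) × (pY.ker ⧸ V.subgroupOf pY.ker) → B ⧸ V := fun x =>
    QuotientGroup.mk (lift x.1 * (Quotient.out x.2 : pY.ker).1)
  have hf : Function.Surjective f := by
    intro y
    obtain ⟨b, rfl⟩ := QuotientGroup.mk_surjective y
    have h := hlift b
    rw [eq_comm, QuotientGroup.eq] at h
    obtain ⟨v, hv, hvb⟩ := Subgroup.mem_map.1 h
    -- pY v = (pY b)⁻¹ * pY (lift ..)
    set l := lift (QuotientGroup.mk (pY b)) with hl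
    have hd : l⁻¹ * b * v ∈ pY.ker := by
      rw [MonoidHom.mem_ker, map_mul, map_mul, map_inv, hvb]; group
    let d : pY.ker := ⟨l⁻¹ * b * v, hd⟩
    refine ⟨(QuotientGroup.mk (pY b), QuotientGroup.mk d), ?_⟩
    show QuotientGroup.mk (l * (Quotient.out (QuotientGroup.mk d : pY.ker ⧸ V.subgroupOf pY.ker)).1)
      = (QuotientGroup.mk b : B ⧸ V)
    have ho : (QuotientGroup.mk (Quotient.out (QuotientGroup.mk d : pY.ker ⧸ V.subgroupOf pY.ker)) :
        pY.ker ⧸ V.subgroupOf pY.ker) = QuotientGroup.mk d := Quotient.out_eq' _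
    rw [QuotientGroup.eq, Subgroup.mem_subgroupOf] at ho
    set o := (Quotient.out (QuotientGroup.mk d : pY.ker ⧸ V.subgroupOf pY.ker)) with hoo
    rw [QuotientGroup.eq]
    have : (l * o.1)⁻¹ * b = ((o⁻¹ * d : pY.ker) : B) * v⁻¹ := by
      show (l * o.1)⁻¹ * b = (o.1⁻¹ * (l⁻¹ * b * v)) * v⁻¹
      group
    rw [this]
    exact mul_mem ho (inv_mem hv)
  have := Finite.of_surjective f hf
  exact Subgroup.index_ne_zero_of_finite

end Aux

section Proj

variable {A B G G₀ : Type} [Group A] [TopologicalSpace A] [Group B] [TopologicalSpace B]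
  [IsTopologicalGroup B] [CompactSpace B] [Group G] [Group G₀]

/-- The image of `cen` in `G`: the kernel of the outer action of `ker res` on `Δ = ker pY`.  So
`Γ = ker res / mon` is the (geometric, or inertial) monodromy group. -/
def mon (pY : B →* G) (res : G →* G₀) : Subgroup G := (cen pY res).map pY

theorem cen_ker {pY : B →* G} {res : G →* G₀}
    (hZ : ∀ b ∈ pY.ker, (∀ c ∈ pY.ker, c * b = b * c) → b = 1) {c : B}
    (hc : c ∈ cen pY res) (hk : c ∈ pY.ker) : c = 1 :=
  hZ c hk (fun x hx => cen_comm hc hx)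

/-- for `a` with `pX a ∈ N` there is a unique `x ∈ ker pY` with `x⁻¹ * φ a ∈ cen` -/
theorem exists_comp {pX : A →* G} {pY : B →* G} {res : G →* G₀} (φ : HomOver pX pY) {a : A}
    (ha : pX a ∈ mon pY res) : ∃ x : B, x ∈ pY.ker ∧ x⁻¹ * φ.hom a ∈ cen pY res := by
  obtain ⟨c, hc, hca⟩ := Subgroup.mem_map.1 ha
  refine ⟨φ.hom a * c⁻¹, ?_, ?_⟩
  · rw [MonoidHom.mem_ker, map_mul, map_inv, φ.comm, hca]; group
  · have : (φ.hom a * c⁻¹)⁻¹ * φ.hom a = c := by group
    rw [this]; exact hc

theorem comp_unique {pY : B →* G} {res : G →* G₀}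
    (hZ : ∀ b ∈ pY.ker, (∀ c ∈ pY.ker, c * b = b * c) → b = 1) {b x y : B}
    (hx : x ∈ pY.ker) (hy : y ∈ pY.ker) (h1 : x⁻¹ * b ∈ cen pY res) (h2 : y⁻¹ * b ∈ cen pY res) :
    x = y := by
  have h : (x⁻¹ * b) * (y⁻¹ * b)⁻¹ ∈ cen pY res := mul_mem h1 (inv_mem h2)
  have e : (x⁻¹ * b) * (y⁻¹ * b)⁻¹ = x⁻¹ * y := by group
  rw [e] at h
  have := cen_ker hZ h (mul_mem (inv_mem hx) hy)
  rw [inv_mul_eq_one] at this
  exact this

/-- the `ker pY`-component of `φ` on `pX ⁻¹ (N)` -/
noncomputable def proj {pX : A →* G} {pY : B →* G} {res : G →* G₀}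
    (hZ : ∀ b ∈ pY.ker, (∀ c ∈ pY.ker, c * b = b * c) → b = 1) (φ : HomOver pX pY) :
    ((mon pY res).comap pX) →* B where
  toFun a := (exists_comp φ a.2).choose
  map_one' := by
    have h := (exists_comp φ (1 : ((mon pY res).comap pX)).2).choose_spec
    refine comp_unique (res := res) hZ h.1 (one_mem _) h.2 ?_
    simp
  map_mul' a b := by
    have ha := (exists_comp φ a.2).choose_spec
    have hb := (exists_comp φ b.2).choose_spec
    have hab := (exists_comp φ (a * b).2).choose_spec
    refine comp_unique (res := res) hZ hab.1 (mul_mem ha.1 hb.1) hab.2 ?_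
    set x := (exists_comp φ a.2).choose with hx
    set y := (exists_comp φ b.2).choose with hy
    have e : (x * y)⁻¹ * φ.hom (a * b : ((mon pY res).comap pX)) =
        (y⁻¹ * (x⁻¹ * φ.hom a)) * φ.hom b := by
      show (x * y)⁻¹ * φ.hom (a.1 * b.1) = _
      rw [map_mul]; group
    have e2 : y⁻¹ * (x⁻¹ * φ.hom a) = (x⁻¹ * φ.hom a) * y⁻¹ :=
      cen_comm ha.2 (inv_mem hb.1)
    rw [e, e2, mul_assoc]
    exact mul_mem ha.2 hb.2

theorem proj_mem {pX : A →* G} {pY : B →* G} {res : G →* G₀}
    (hZ : ∀ b ∈ pY.ker, (∀ c ∈ pY.ker, c * b = b * c) → b = 1) (φ : HomOver pX pY)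
    (a : (mon pY res).comap pX) : proj hZ φ a ∈ pY.ker :=
  (exists_comp φ a.2).choose_spec.1

theorem proj_cen {pX : A →* G} {pY : B →* G} {res : G →* G₀}
    (hZ : ∀ b ∈ pY.ker, (∀ c ∈ pY.ker, c * b = b * c) → b = 1) (φ : HomOver pX pY)
    (a : (mon pY res).comap pX) : (proj hZ φ a)⁻¹ * φ.hom a ∈ cen pY res :=
  (exists_comp φ a.2).choose_spec.2

theorem proj_unique {pX : A →* G} {pY : B →* G} {res : G →* G₀}
    (hZ : ∀ b ∈ pY.ker, (∀ c ∈ pY.ker, c * b = b * c) → b = 1) (φ : HomOver pX pY)
    (a : (mon pY res).comap pX) {x : B} (hx : x ∈ pY.ker)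
    (h : x⁻¹ * φ.hom a ∈ cen pY res) : proj hZ φ a = x :=
  comp_unique (res := res) hZ (proj_mem hZ φ a) hx (proj_cen hZ φ a) h

theorem proj_cont {pX : A →* G} {pY : B →* G} {res : G →* G₀}
    (hZ : ∀ b ∈ pY.ker, (∀ c ∈ pY.ker, c * b = b * c) → b = 1) (φ : HomOver pX pY)
    (hk : IsClosed (pY.ker : Set B)) (hc : IsClosed (cen pY res : Set B)) :
    Continuous (proj (res := res) hZ φ) := by
  rw [continuous_iff_isClosed]
  intro C hC
  let S : Set (((mon pY res).comap pX) × B) :=
    {x | x.2 ∈ (pY.ker : Set B) ∧ x.2⁻¹ * φ.hom x.1 ∈ (cen pY res : Set B) ∧ x.2 ∈ C}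
  have hS : IsClosed S := by
    refine IsClosed.inter (hk.preimage continuous_snd) (IsClosed.inter (hc.preimage ?_)
      (hC.preimage continuous_snd))
    exact (continuous_snd.inv).mul (φ.cont.comp (continuous_subtype_val.comp continuous_fst))
  have : (proj (res := res) hZ φ) ⁻¹' C = Prod.fst '' S := by
    ext a
    constructor
    · intro h
      exact ⟨(a, proj hZ φ a), ⟨proj_mem hZ φ a, proj_cen hZ φ a, h⟩, rfl⟩
    · rintro ⟨⟨a', x⟩, ⟨h1, h2, h3⟩, rfl⟩
      show proj hZ φ a' ∈ C
      rw [proj_unique hZ φ a' h1 h2]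
      exact h3
  rw [this]
  exact isClosedMap_fst_of_compactSpace _ hS

end Proj

/-- Fundamental groups as in (G) or (L) of the header, together with the published theorems about
them that are used. -/
structure Situation (A B G G₀ T P M ι : Type)
    [Group A] [TopologicalSpace A] [IsTopologicalGroup A] [CompactSpace A] [T2Space A]
    [TotallyDisconnectedSpace A]
    [Group B] [TopologicalSpace B] [IsTopologicalGroup B] [CompactSpace B] [T2Space B]
    [TotallyDisconnectedSpace B]
    [Group G] [TopologicalSpace G] [IsTopologicalGroup G] [CompactSpace G] [T2Space G]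
    [TotallyDisconnectedSpace G]
    [Group G₀] [TopologicalSpace G₀] [IsTopologicalGroup G₀] [CompactSpace G₀] [T2Space G₀]
    [TotallyDisconnectedSpace G₀]
    [CommGroup T] [TopologicalSpace T] [IsTopologicalGroup T] [CompactSpace T] [T2Space T]
    [TotallyDisconnectedSpace T] [MulDistribMulAction G₀ T] [MulAction B P] where
  /-- `A = π₁(X) → G = G_K`. -/
  pX : A →* G
  /-- `B = π₁(Y) → G = G_K`; its kernel is `Δ = π₁(Y_K̄)`. -/
  pY : B →* G
  /-- `G = G_K → G₀ = G_k`: restriction to `k̄` in (G), passage to the residue field in (L). -/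
  res : G →* G₀
  pX_cont : Continuous pX
  pY_cont : Continuous pY
  res_cont : Continuous res
  pX_surj : Function.Surjective pX
  pY_surj : Function.Surjective pY
  res_surj : Function.Surjective res
  /-- Hypothesis on `Y`: `ker res` acts on `Δ` through a finite group `Γ` of outer automorphisms.
  In (G) this says that `Y` is isotrivial, in (L) that it has potentially good reduction. -/
  mono_fin : (mon pY res).relIndex res.ker ≠ 0
  /-- Hypothesis on `Y`: `Γ ≠ 1`.  In (G): `Y` is not constant over `K k̄`.  In (L): `Y` does not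
  have good reduction (criterion of Oda and Tamagawa: good reduction means trivial outer action of
  the inertia group on `Δ`, as `k` has characteristic zero). -/
  mono_ne : mon pY res ≠ res.ker
  /-- `Δ` has trivial centre. -/
  centre : ∀ b ∈ pY.ker, (∀ c ∈ pY.ker, c * b = b * c) → b = 1
  /-- The abelianised fundamental group of a proper curve over an algebraically closed field of
  characteristic zero is torsion-free; `U` runs through the open subgroups of `Δ`. -/
  torsion : ∀ U : Subgroup B, U ≤ pY.ker → IsClosed (U : Set B) → U.relIndex pY.ker ≠ 0 →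
    ∀ u ∈ U, ∀ n : ℕ, n ≠ 0 → u ^ n ∈ (⁅U, U⁆).topologicalClosure →
      u ∈ (⁅U, U⁆).topologicalClosure
  /-- Weights (Weil).  `T` is the Tate module `ℤ^(1)` of the roots of unity of `k̄`, with its
  cyclotomic action of `G₀ = G_k`.  `V = π₁(Y_V)` runs through the open subgroups of `π₁(Y)`,
  `U = V ∩ Δ` is the geometric fundamental group of the curve `Y_V`, and the statement is that the
  Tate module `U^ab` of the Jacobian of `Y_V` receives no nonzero equivariant homomorphism
  from `ℤ^(1)`. -/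
  weight : ∀ V : Subgroup B, IsClosed (V : Set B) → V.index ≠ 0 →
    ∀ a : T →* B, Continuous a → (∀ z, a z ∈ V ⊓ pY.ker) →
      (∀ v ∈ V, ∀ z, v * a z * v⁻¹ * (a (res (pY v) • z))⁻¹ ∈
        (⁅V ⊓ pY.ker, V ⊓ pY.ker⁆).topologicalClosure) →
      ∀ z, a z ∈ (⁅V ⊓ pY.ker, V ⊓ pY.ker⁆).topologicalClosure
  /-- `P` is the set of closed points of the universal pro-finite-étale cover `C~` of `C`, where `C`
  is the curve over `k̄` with `Y_M = C ×_k̄ M` in (G) and the special fibre of the smooth model of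
  `Y` over the normalisation in `K̄` in (L).  In both cases `π₁(C) = Δ`, and `π₁(Y)` acts on `C~`.
  A nontrivial covering automorphism of `C~` over `C` has no fixed point. -/
  free : ∀ p : P, ∀ b ∈ pY.ker, b • p = p → b = 1
  /-- The subgroup `cen` acts trivially on `C~` (an automorphism of a hyperbolic curve which acts
  trivially on its fundamental group, up to inner automorphisms, is trivial). -/
  triv : ∀ c ∈ cen pY res, ∀ p : P, c • p = p
  /-- `(ker (res ∘ pY)) / cen` is the profinite completion of a cocompact Fuchsian group (the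
  orbifold fundamental group of `C / Γ`), and every nontrivial finite subgroup of it fixes exactly
  one point of `C~`.  Existence: Bridson, Conder and Reid, Determining Fuchsian groups by their
  finite quotients, Theorem 5.1 (a finite subgroup is conjugate to a subgroup of the Fuchsian
  group).  Uniqueness: the same theorem (nonconjugate maximal finite subgroups stay nonconjugate),
  or Smith theory (an element `f` of prime order `l` acts on `C~`, which has the cohomology of a
  point with coefficients `ℤ/l`, so that the profinite set of its fixed points has the cohomology of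
  a point as well, and is one point). -/
  fix : ∀ F : Subgroup B, cen pY res ≤ F → F ≤ (res.comp pY).ker → (cen pY res).relIndex F ≠ 0 →
    F ≠ cen pY res → ∃! p : P, ∀ f ∈ F, f • p = p
  /-- The stabiliser of a point of `C~` in `(ker (res ∘ pY)) / cen` is isomorphic to the stabiliser
  of a point of `C` in `Γ`, a finite group of automorphisms of `C` over `k̄`, and is therefore
  cyclic. -/
  cyclic : ∀ p : P, ∃ g : B, res (pY g) = 1 ∧ g • p = p ∧
    ∀ b : B, b • p = p → res (pY b) = 1 → ∃ n : ℤ, ∃ c ∈ cen pY res, b = g ^ n * c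
  /-- The inertia groups `τ i : ℤ^(1) → π₁(X)`.  In (G): of all extensions to an algebraic closure
  of all divisorial valuations of the function field of `X_M` over `k̄`.  In (L): the subgroup
  `mon` of the inertia group `ℤ^(1)` of `K`. -/
  τ : ι → T →* A
  τ_cont : ∀ i, Continuous (τ i)
  /-- A subgroup of the decomposition group: the inertia group (of the function field of `X_M`, as
  in the description of `τ`) together with a complement which is the image of an open subgroup
  of `G_k` under a continuous homomorphism over `G_k`.  In (G) this is a lift of a quasi-section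
  `G_k'' → G_κ` of the Galois group of the residue field `κ` (over `k`) of the valuation; it
  lifts because an extension of `G_κ` by the inertia group splits by the choice of roots of a
  uniformiser. -/
  D : ι → Subgroup A
  D_closed : ∀ i, IsClosed (D i : Set A)
  D_inter : ∀ i, D i ⊓ (mon pY res).comap pX = (τ i).range
  D_index : ∀ i, (D i ⊔ (mon pY res).comap pX).index ≠ 0
  τ_conj : ∀ i, ∀ d ∈ D i, ∀ z, d * τ i z * d⁻¹ = τ i (res (pX d) • z)
  /-- In (G): the quotient of `π₁(X_M)` by the inertia groups is the fundamental group of the model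
  `Z` (purity of the branch locus), and this is the hypothesis that the first Betti numbers of all
  finite étale covers of `Z` vanish.  In (L): automatic, as `mon` is the inertia group. -/
  fab : ∀ R : Subgroup A, R ≤ (mon pY res).comap pX → IsClosed (R : Set A) →
    R.relIndex ((mon pY res).comap pX) ≠ 0 → (∀ i, (τ i).range ≤ R) →
    ((⁅R, R⁆ ⊔ ⨆ i, (τ i).range).topologicalClosure).relIndex R ≠ 0
  /-- `M` is `Hom_K(X, Y)` (which is `Y(K)` for `X = Spec K`), and this is the map (6). -/
  ind : M → HomOut pX pY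
  /-- If the stabiliser of a point `p` of `C~` maps onto `G_K` then the image of `p` in `C` comes
  from a `K`-rational point of `Y` (Galois descent in (G); fixed points of tame group
  actions on smooth models are smooth, Edixhoven, and the lemma of Hensel in (L)), and the constant
  morphism `X → Spec K → Y` with this value induces a homomorphism into the stabiliser. -/
  pts : ∀ p : P, (∀ g : G, ∃ b : B, b • p = p ∧ pY b = g) →
    ∃ m : M, ∃ φ : HomOver pX pY, ind m = Quotient.mk _ φ ∧ ∀ a, φ.hom a • p = p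

section Main

variable {A B G G₀ T P M ι : Type}
    [Group A] [TopologicalSpace A] [IsTopologicalGroup A] [CompactSpace A] [T2Space A]
    [TotallyDisconnectedSpace A]
    [Group B] [TopologicalSpace B] [IsTopologicalGroup B] [CompactSpace B] [T2Space B]
    [TotallyDisconnectedSpace B]
    [Group G] [TopologicalSpace G] [IsTopologicalGroup G] [CompactSpace G] [T2Space G]
    [TotallyDisconnectedSpace G]
    [Group G₀] [TopologicalSpace G₀] [IsTopologicalGroup G₀] [CompactSpace G₀] [T2Space G₀]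
    [TotallyDisconnectedSpace G₀]
    [CommGroup T] [TopologicalSpace T] [IsTopologicalGroup T] [CompactSpace T] [T2Space T]
    [TotallyDisconnectedSpace T] [MulDistribMulAction G₀ T] [MulAction B P]

namespace Situation

variable (X : Situation A B G G₀ T P M ι)

theorem ker_closed : IsClosed (X.pY.ker : Set B) := by
  have : (X.pY.ker : Set B) = X.pY ⁻¹' {1} := by
    ext b; simp [MonoidHom.mem_ker]
  rw [this]
  exact isClosed_singleton.preimage X.pY_cont

theorem cen_closed : IsClosed (cen X.pY X.res : Set B) := by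
  unfold cen
  rw [Subgroup.coe_inf]
  refine IsClosed.inter ?_ ?_
  · exact Set.isClosed_centralizer _
  · have : ((X.res.comp X.pY).ker : Set B) = (X.res.comp X.pY) ⁻¹' {1} := by
      ext b; simp [MonoidHom.mem_ker]
    rw [this]
    exact isClosed_singleton.preimage (X.res_cont.comp X.pY_cont)

theorem mon_closed : IsClosed (mon X.pY X.res : Set G) := by
  have : (mon X.pY X.res : Set G) = X.pY '' (cen X.pY X.res : Set B) := by
    rw [mon, Subgroup.coe_map]
  rw [this]
  exact (X.cen_closed.isCompact.image X.pY_cont).isClosed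

/-- `R = pX ⁻¹ (N)` -/
abbrev R : Subgroup A := (mon X.pY X.res).comap X.pX

theorem R_closed : IsClosed (X.R : Set A) := by
  rw [R, Subgroup.coe_comap]
  exact X.mon_closed.preimage X.pX_cont

variable (φ : HomOver X.pX X.pY)

noncomputable def ρ : X.R →* B := proj X.centre φ

theorem ρ_cont : Continuous (X.ρ φ) := proj_cont X.centre φ X.ker_closed X.cen_closed

theorem ρ_mem (a : X.R) : X.ρ φ a ∈ X.pY.ker := proj_mem X.centre φ a

theorem ρ_cen (a : X.R) : (X.ρ φ a)⁻¹ * φ.hom a ∈ cen X.pY X.res := proj_cen X.centre φ a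

theorem ρ_unique (a : X.R) {x : B} (hx : x ∈ X.pY.ker) (h : x⁻¹ * φ.hom a ∈ cen X.pY X.res) :
    X.ρ φ a = x := proj_unique X.centre φ a hx h

theorem τ_mem (i : ι) (z : T) : X.τ i z ∈ X.R := by
  have : X.τ i z ∈ (X.τ i).range := ⟨z, rfl⟩
  rw [← X.D_inter i] at this
  exact this.2

theorem τ_memD (i : ι) (z : T) : X.τ i z ∈ X.D i := by
  have : X.τ i z ∈ (X.τ i).range := ⟨z, rfl⟩
  rw [← X.D_inter i] at this
  exact this.1

/-- the homomorphism `T → R` -/
def τR (i : ι) : T →* X.R := (X.τ i).codRestrict X.R (X.τ_mem i)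

theorem τR_cont (i : ι) : Continuous (X.τR i) :=
  Continuous.subtype_mk (X.τ_cont i) _

/-- a closed normal-type criterion: commutators of `U` lie in an open normal subgroup `N₀` -/
theorem closure_comm_le {U N₀ : Subgroup B} (hN : IsClosed (N₀ : Set B))
    (h : ∀ x ∈ U, ∀ y ∈ U, x * y * x⁻¹ * y⁻¹ ∈ N₀) : (⁅U, U⁆).topologicalClosure ≤ N₀ := by
  refine Subgroup.topologicalClosure_minimal _ ?_ hN
  rw [Subgroup.commutator_le]
  intro x hx y hy
  exact h x hx y hy

theorem eq_one_of_forall {b : B} (h : ∀ N₀ : OpenNormalSubgroup B, b ∈ (N₀ : Subgroup B)) :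
    b = 1 := by
  by_contra hb
  obtain ⟨H, hH⟩ := ProfiniteGrp.exist_openNormalSubgroup_sub_open_nhds_of_one
    (G := B) (U := {b}ᶜ) isOpen_compl_singleton (by simpa using Ne.symm hb)
  exact hH (h H) rfl

/-- Step 1: `ρ` kills the inertia groups. -/
theorem ρ_τ (i : ι) (z : T) : X.ρ φ (X.τR i z) = 1 := by
  refine eq_one_of_forall fun N₀ => ?_
  set Z := cen X.pY X.res with hZdef
  have hZn : Z.Normal := cen_normal _ _
  set N : Subgroup B := (N₀ : Subgroup B) with hN
  have hNn : N.Normal := N₀.isNormal'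
  have hNo : IsOpen (N : Set B) := N₀.isOpen'
  have hNc : IsClosed (N : Set B) := Subgroup.isClosed_of_isOpen N hNo
  have hNfi : N.index ≠ 0 := by
    have : Finite (B ⧸ N) := Subgroup.quotient_finite_of_isOpen N hNo
    exact Subgroup.index_ne_zero_of_finite
  set Δ := X.pY.ker with hΔ
  have hΔn : Δ.Normal := by rw [hΔ]; infer_instance
  set a : T →* B := (X.ρ φ).comp (X.τR i) with ha
  have hac : Continuous a := (X.ρ_cont φ).comp (X.τR_cont i)
  have haΔ : ∀ z, a z ∈ Δ := fun z => X.ρ_mem φ _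
  have haZ : ∀ z, (a z)⁻¹ * φ.hom (X.τ i z) ∈ Z := fun z => X.ρ_cen φ (X.τR i z)
  have haU : ∀ z x, x ∈ Δ → x⁻¹ * φ.hom (X.τ i z) ∈ Z → a z = x := fun z x hx h =>
    X.ρ_unique φ (X.τR i z) hx h
  set K : Subgroup B := N ⊓ Δ with hK
  have hKn : K.Normal := by rw [hK]; infer_instance
  set V : Subgroup B := ((X.D i).map φ.hom ⊔ K) ⊔ Z with hV
  have hV_mem : ∀ v, v ∈ V ↔ ∃ d ∈ X.D i, ∃ n ∈ K, ∃ c ∈ Z, v = φ.hom d * n * c := by
    intro v
    rw [hV, Subgroup.mem_sup_of_normal_right]
    constructor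
    · rintro ⟨w, hw, c, hc, rfl⟩
      obtain ⟨y, hy, n, hn, rfl⟩ := Subgroup.mem_sup_of_normal_right.1 hw
      obtain ⟨d, hd, rfl⟩ := Subgroup.mem_map.1 hy
      exact ⟨d, hd, n, hn, c, hc, rfl⟩
    · rintro ⟨d, hd, n, hn, c, hc, rfl⟩
      exact ⟨φ.hom d * n, Subgroup.mem_sup_of_normal_right.2
        ⟨φ.hom d, Subgroup.mem_map_of_mem _ hd, n, hn, rfl⟩, c, hc, rfl⟩
  have hVc : IsClosed (V : Set B) := by
    have e : (V : Set B) = (fun x : (B × B) × B => x.1.1 * x.1.2 * x.2) ''
        (((φ.hom '' (X.D i : Set A)) ×ˢ (K : Set B)) ×ˢ (Z : Set B)) := by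
      ext v
      rw [SetLike.mem_coe, hV_mem]
      constructor
      · rintro ⟨d, hd, n, hn, c, hc, rfl⟩
        exact ⟨((φ.hom d, n), c), ⟨⟨⟨d, hd, rfl⟩, hn⟩, hc⟩, rfl⟩
      · rintro ⟨⟨⟨y, n⟩, c⟩, ⟨⟨⟨d, hd, rfl⟩, hn⟩, hc⟩, rfl⟩
        exact ⟨d, hd, n, hn, c, hc, rfl⟩
    rw [e]
    refine (IsCompact.image ?_ (by fun_prop)).isClosed
    refine IsCompact.prod (IsCompact.prod ?_ ?_) ?_
    · exact (X.D_closed i).isCompact.image φ.cont
    · rw [hK, Subgroup.coe_inf]
      exact (hNc.inter X.ker_closed).isCompact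
    · exact X.cen_closed.isCompact
  have hKV : K ≤ V := (le_sup_right : K ≤ _ ⊔ K).trans le_sup_left
  have hZV : Z ≤ V := le_sup_right
  have hVi : V.index ≠ 0 := by
    refine index_ne_zero_of_map X.pY V ?_ ?_
    · have h1 : (X.D i ⊔ X.R).map X.pX ≤ V.map X.pY := by
        rw [Subgroup.map_sup]
        refine sup_le ?_ ?_
        · rintro _ ⟨d, hd, rfl⟩
          refine ⟨φ.hom d, ?_, φ.comm d⟩
          exact le_sup_left (a := (X.D i).map φ.hom ⊔ K) (le_sup_left (a := (X.D i).map φ.hom)
            (Subgroup.mem_map_of_mem _ hd))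
        · rintro _ ⟨r, hr, rfl⟩
          obtain ⟨c, hc, hcr⟩ := Subgroup.mem_map.1 (Subgroup.mem_comap.1 hr)
          exact ⟨c, hZV hc, hcr⟩
      have h2 : ((X.D i ⊔ X.R).map X.pX).index ≠ 0 := by
        intro h0
        have := Subgroup.index_map_dvd (X.D i ⊔ X.R) X.pX_surj
        rw [h0, zero_dvd_iff] at this
        exact X.D_index i this
      intro h0
      have := Subgroup.index_dvd_of_le h1
      rw [h0, zero_dvd_iff] at this
      exact h2 this
    · intro h0
      have h1 : V.relIndex Δ ∣ K.relIndex Δ := Subgroup.relIndex_dvd_of_le_left Δ hKV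
      rw [h0, zero_dvd_iff] at h1
      rw [hK, Subgroup.inf_relIndex_right] at h1
      exact hNfi (Subgroup.index_eq_zero_of_relIndex_eq_zero h1)
  set U : Subgroup B := V ⊓ Δ with hU
  have hUn : ∀ v ∈ V, ∀ u ∈ ⁅U, U⁆, v * u * v⁻¹ ∈ ⁅U, U⁆ := by
    intro v hv u hu
    have hc : ⁅U, U⁆.map (MulAut.conj v).toMonoidHom ≤ ⁅U, U⁆ := by
      rw [Subgroup.map_commutator]
      have : U.map (MulAut.conj v).toMonoidHom ≤ U := by
        rintro _ ⟨x, hx, rfl⟩
        refine ⟨?_, ?_⟩
        · exact V.mul_mem (V.mul_mem hv hx.1) (V.inv_mem hv)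
        · exact hΔn.conj_mem x hx.2 v
      exact Subgroup.commutator_mono this this
    exact hc ⟨u, hu, rfl⟩
  have haV : ∀ z, a z ∈ V := by
    intro z
    rw [hV_mem]
    refine ⟨X.τ i z, X.τ_memD i z, 1, one_mem _, ((a z)⁻¹ * φ.hom (X.τ i z))⁻¹,
      inv_mem (haZ z), ?_⟩
    group
  have haUm : ∀ z, a z ∈ U := fun z => ⟨haV z, haΔ z⟩
  have hKU : K ≤ U := le_inf hKV inf_le_right
  -- elements of `U`
  have hU_mem : ∀ u ∈ U, ∃ z, ∃ n ∈ K, u = a z * n := by
    intro u hu
    obtain ⟨d, hd, n, hn, c, hc, rfl⟩ := (hV_mem u).1 hu.1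
    have hdR : d ∈ X.R := by
      rw [Subgroup.mem_comap]
      have h1 : X.pY (φ.hom d * n * c) = 1 := hu.2
      rw [map_mul, map_mul, φ.comm, show X.pY n = 1 from hn.2, mul_one] at h1
      rw [eq_inv_of_mul_eq_one_left h1]
      exact inv_mem (Subgroup.mem_map_of_mem _ hc)
    have hdτ : d ∈ (X.τ i).range := by
      rw [← X.D_inter i]; exact ⟨hd, hdR⟩
    obtain ⟨z, rfl⟩ := hdτ
    have hcn : n * ((a z)⁻¹ * φ.hom (X.τ i z)) = ((a z)⁻¹ * φ.hom (X.τ i z)) * n :=
      cen_comm (haZ z) hn.2
    have e : φ.hom (X.τ i z) * n * c = a z * n * (((a z)⁻¹ * φ.hom (X.τ i z)) * c) := by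
      have : a z * n * (((a z)⁻¹ * φ.hom (X.τ i z)) * c) =
          a z * (n * ((a z)⁻¹ * φ.hom (X.τ i z))) * c := by group
      rw [this, hcn]; group
    have hc1 : ((a z)⁻¹ * φ.hom (X.τ i z)) * c = 1 := by
      refine cen_ker X.centre (mul_mem (haZ z) hc) ?_
      have h2 : (a z * n)⁻¹ * (φ.hom (X.τ i z) * n * c) ∈ Δ :=
        mul_mem (inv_mem (mul_mem (haΔ z) hn.2)) hu.2
      rw [e] at h2
      have h3 : (a z * n)⁻¹ * (a z * n * (((a z)⁻¹ * φ.hom (X.τ i z)) * c)) =
        ((a z)⁻¹ * φ.hom (X.τ i z)) * c := by group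
      rw [h3] at h2
      exact h2
    refine ⟨z, n, hn, ?_⟩
    rw [e, hc1, mul_one]
  -- the commutators of `U` lie in `N`
  have hcl : (⁅U, U⁆).topologicalClosure ≤ N := by
    refine closure_comm_le hNc ?_
    intro x hx y hy
    obtain ⟨z, n, hn, rfl⟩ := hU_mem x hx
    obtain ⟨w, m, hm, rfl⟩ := hU_mem y hy
    have q := QuotientGroup.mk' N
    rw [← QuotientGroup.eq_one_iff (N := N)]
    have h1 : (QuotientGroup.mk n : B ⧸ N) = 1 := (QuotientGroup.eq_one_iff n).2 hn.1
    have h2 : (QuotientGroup.mk m : B ⧸ N) = 1 := (QuotientGroup.eq_one_iff m).2 hm.1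
    have h3 : a z * a w = a w * a z := by rw [← map_mul, ← map_mul, mul_comm]
    have h4 : (QuotientGroup.mk (a z) : B ⧸ N) * QuotientGroup.mk (a w) =
        QuotientGroup.mk (a w) * QuotientGroup.mk (a z) := by
      rw [← QuotientGroup.mk_mul, ← QuotientGroup.mk_mul, h3]
    simp only [QuotientGroup.mk_mul, QuotientGroup.mk_inv, h1, h2, mul_one]
    rw [h4]; group
  -- equivariance
  have heq : ∀ v ∈ V, ∀ z, v * a z * v⁻¹ * (a (X.res (X.pY v) • z))⁻¹ ∈
      (⁅U, U⁆).topologicalClosure := by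
    intro v hv z
    obtain ⟨d, hd, n, hn, c, hc, rfl⟩ := (hV_mem v).1 hv
    have hres : X.res (X.pY (φ.hom d * n * c)) = X.res (X.pX d) := by
      rw [map_mul, map_mul, map_mul, map_mul, φ.comm, show X.pY n = 1 from hn.2, map_one,
        mul_one, cen_res hc, mul_one]
    rw [hres]
    have hstar : a (X.res (X.pX d) • z) = φ.hom d * a z * (φ.hom d)⁻¹ := by
      refine haU _ _ (hΔn.conj_mem _ (haΔ z) _) ?_
      rw [← X.τ_conj i d hd z, map_mul, map_mul, map_inv]
      have : (φ.hom d * a z * (φ.hom d)⁻¹)⁻¹ * (φ.hom d * φ.hom (X.τ i z) * (φ.hom d)⁻¹) =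
          φ.hom d * ((a z)⁻¹ * φ.hom (X.τ i z)) * (φ.hom d)⁻¹ := by group
      rw [this]
      exact hZn.conj_mem _ (haZ z) _
    have hcz : c * a z * c⁻¹ = a z := by
      rw [← cen_comm hc (haΔ z)]; group
    have e : φ.hom d * n * c * a z * (φ.hom d * n * c)⁻¹ * (a (X.res (X.pX d) • z))⁻¹ =
        φ.hom d * (n * a z * n⁻¹ * (a z)⁻¹) * (φ.hom d)⁻¹ := by
      rw [hstar]
      have : φ.hom d * n * c * a z * (φ.hom d * n * c)⁻¹ =
        φ.hom d * n * (c * a z * c⁻¹) * n⁻¹ * (φ.hom d)⁻¹ := by group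
      rw [this, hcz]; group
    rw [e]
    refine Subgroup.le_topologicalClosure _ ?_
    have hdV : φ.hom d ∈ V := le_sup_left (a := (X.D i).map φ.hom ⊔ K)
      (le_sup_left (a := (X.D i).map φ.hom) (Subgroup.mem_map_of_mem _ hd))
    refine hUn _ hdV _ ?_
    exact Subgroup.commutator_mem_commutator (hKU hn) (haUm z)
  exact hcl (X.weight V hVc hVi a hac haUm heq z)

/-- Step 2: `ρ` is trivial. -/
theorem ρ_one (x : X.R) : X.ρ φ x = 1 := by
  refine eq_one_of_forall fun N₀ => ?_
  set Z := cen X.pY X.res with hZdef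
  set N : Subgroup B := (N₀ : Subgroup B) with hN
  have hNn : N.Normal := N₀.isNormal'
  have hNo : IsOpen (N : Set B) := N₀.isOpen'
  have hNc : IsClosed (N : Set B) := Subgroup.isClosed_of_isOpen N hNo
  set Δ := X.pY.ker with hΔ
  set y := X.ρ φ x with hy
  set W : Subgroup B := zpowers y ⊔ N with hW
  have hNW : N ≤ W := le_sup_right
  have hWo : IsOpen (W : Set B) := Subgroup.isOpen_mono hNW hNo
  have hWc : IsClosed (W : Set B) := Subgroup.isClosed_of_isOpen W hWo
  have hWi : W.index ≠ 0 := by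
    have : Finite (B ⧸ W) := Subgroup.quotient_finite_of_isOpen W hWo
    exact Subgroup.index_ne_zero_of_finite
  set U : Subgroup B := W ⊓ Δ with hU
  have hyW : y ∈ W := le_sup_left (a := zpowers y) (mem_zpowers y)
  have hyU : y ∈ U := ⟨hyW, X.ρ_mem φ x⟩
  set R' : Subgroup A := (W.comap (X.ρ φ)).map X.R.subtype with hR'
  have hR'R : R' ≤ X.R := by
    rw [hR']
    exact Subgroup.map_subtype_le _
  have hR'c : IsClosed (R' : Set A) := by
    rw [hR', Subgroup.coe_map]
    exact X.R_closed.isClosedEmbedding_subtypeVal.isClosedMap _ (hWc.preimage (X.ρ_cont φ))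
  have hR'i : R'.relIndex X.R ≠ 0 := by
    rw [Subgroup.relIndex, hR', Subgroup.subgroupOf,
      Subgroup.comap_map_eq_self_of_injective X.R.subtype_injective, Subgroup.index_comap]
    intro h0
    exact hWi (Subgroup.index_eq_zero_of_relIndex_eq_zero h0)
  have hR'τ : ∀ i, (X.τ i).range ≤ R' := by
    rintro i _ ⟨z, rfl⟩
    refine ⟨X.τR i z, ?_, rfl⟩
    show X.ρ φ (X.τR i z) ∈ W
    rw [X.ρ_τ φ i z]
    exact one_mem _
  have hfab := X.fab R' hR'R hR'c hR'i hR'τ
  have hxR' : (x : A) ∈ R' := ⟨x, hyW, rfl⟩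
  obtain ⟨n, hn, -, hxn⟩ := Subgroup.exists_pow_mem_of_relIndex_ne_zero hfab hxR'
  -- the image of the closure
  have hUi : U.relIndex Δ ≠ 0 := by
    rw [hU, Subgroup.inf_relIndex_right]
    intro h0
    exact hWi (Subgroup.index_eq_zero_of_relIndex_eq_zero h0)
  have hUc : IsClosed (U : Set B) := by
    rw [hU, Subgroup.coe_inf]
    exact hWc.inter X.ker_closed
  have hclosure : ∀ b : X.R, (b : A) ∈ (⁅R', R'⁆ ⊔ ⨆ i, (X.τ i).range).topologicalClosure →
      X.ρ φ b ∈ (⁅U, U⁆).topologicalClosure := by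
    have hle : (⁅R', R'⁆ ⊔ ⨆ i, (X.τ i).range).topologicalClosure ≤
        ((⁅U, U⁆).topologicalClosure.comap (X.ρ φ)).map X.R.subtype := by
      refine Subgroup.topologicalClosure_minimal _ ?_ ?_
      · refine sup_le ?_ (iSup_le ?_)
        · rw [Subgroup.commutator_le]
          rintro _ ⟨a, ha, rfl⟩ _ ⟨b, hb, rfl⟩
          refine ⟨a * b * a⁻¹ * b⁻¹, ?_, rfl⟩
          change X.ρ φ (a * b * a⁻¹ * b⁻¹) ∈ (⁅U, U⁆).topologicalClosure
          rw [map_mul, map_mul, map_mul, map_inv, map_inv]
          refine Subgroup.le_topologicalClosure _ ?_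
          exact Subgroup.commutator_mem_commutator ⟨ha, X.ρ_mem φ a⟩ ⟨hb, X.ρ_mem φ b⟩
        · rintro i _ ⟨z, rfl⟩
          refine ⟨X.τR i z, ?_, rfl⟩
          change X.ρ φ (X.τR i z) ∈ (⁅U, U⁆).topologicalClosure
          rw [X.ρ_τ φ i z]
          exact one_mem _
      · rw [Subgroup.coe_map]
        exact X.R_closed.isClosedEmbedding_subtypeVal.isClosedMap _
          ((Subgroup.isClosed_topologicalClosure _).preimage (X.ρ_cont φ))
    intro b hb
    obtain ⟨b', hb', e⟩ := hle hb
    have : b' = b := Subtype.ext e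
    rw [← this]
    exact hb'
  have hyn : y ^ n ∈ (⁅U, U⁆).topologicalClosure := by
    have := hclosure (x ^ n) hxn.1
    rwa [map_pow] at this
  have hyc := X.torsion U inf_le_right hUc hUi y hyU n hn.ne' hyn
  -- commutators of `U` lie in `N`
  have hcl : (⁅U, U⁆).topologicalClosure ≤ N := by
    refine closure_comm_le hNc ?_
    intro u hu v hv
    have hu' : ∃ k : ℤ, ∃ m ∈ N, u = y ^ k * m := by
      obtain ⟨w, hw, m, hm, rfl⟩ := Subgroup.mem_sup_of_normal_right.1 hu.1
      obtain ⟨k, rfl⟩ := Subgroup.mem_zpowers_iff.1 hw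
      exact ⟨k, m, hm, rfl⟩
    have hv' : ∃ k : ℤ, ∃ m ∈ N, v = y ^ k * m := by
      obtain ⟨w, hw, m, hm, rfl⟩ := Subgroup.mem_sup_of_normal_right.1 hv.1
      obtain ⟨k, rfl⟩ := Subgroup.mem_zpowers_iff.1 hw
      exact ⟨k, m, hm, rfl⟩
    obtain ⟨k, m, hm, rfl⟩ := hu'
    obtain ⟨l, m', hm', rfl⟩ := hv'
    rw [← QuotientGroup.eq_one_iff (N := N)]
    have h1 : (QuotientGroup.mk m : B ⧸ N) = 1 := (QuotientGroup.eq_one_iff m).2 hm
    have h2 : (QuotientGroup.mk m' : B ⧸ N) = 1 := (QuotientGroup.eq_one_iff m').2 hm'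
    simp only [QuotientGroup.mk_mul, QuotientGroup.mk_inv, QuotientGroup.mk_zpow, h1, h2, mul_one]
    group
  exact hcl hyc

theorem φ_R {a : A} (ha : a ∈ X.R) : φ.hom a ∈ cen X.pY X.res := by
  have h := X.ρ_cen φ ⟨a, ha⟩
  rw [X.ρ_one φ ⟨a, ha⟩] at h
  simpa using h

/-- Step 3: there is a unique point fixed by the image of the geometric part, and it is fixed by
the whole image. -/
theorem exists_point : ∃ p : P, (∀ a, φ.hom a • p = p) ∧
    (∀ p' : P, (∀ a, φ.hom a • p' = p') → p' = p) ∧
    (∀ g ∈ X.res.ker, ∃ b : B, b • p = p ∧ X.res (X.pY b) = 1 ∧ X.pY b = g) := by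
  set Z := cen X.pY X.res with hZdef
  have hZn : Z.Normal := cen_normal _ _
  set K := (X.res.comp X.pX).ker with hK
  have hKn : K.Normal := by rw [hK]; infer_instance
  set F : Subgroup B := K.map φ.hom ⊔ Z with hF
  have hZF : Z ≤ F := le_sup_right
  have hFΛ : F ≤ (X.res.comp X.pY).ker := by
    refine sup_le ?_ inf_le_right
    rintro _ ⟨k, hk, rfl⟩
    rw [MonoidHom.mem_ker, MonoidHom.comp_apply, φ.comm]
    exact hk
  have hRZ : X.R ≤ Z.comap φ.hom := fun a ha => X.φ_R φ ha
  have hRi : X.R.relIndex K ≠ 0 := by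
    have h := Subgroup.relIndex_comap_ne_zero X.pX X.mono_fin
    have e : K = X.res.ker.comap X.pX := by
      ext a; rfl
    rw [e]
    exact h
  have hFi : Z.relIndex F ≠ 0 := by
    rw [hF, Subgroup.relIndex_sup_right, ← Subgroup.relIndex_comap]
    intro h0
    exact hRi (Subgroup.relIndex_eq_zero_of_le_left hRZ h0)
  have hFZ : F ≠ Z := by
    intro h
    refine X.mono_ne (le_antisymm ?_ ?_)
    · rintro _ ⟨c, hc, rfl⟩
      exact hc.2
    · intro g hg
      obtain ⟨a, rfl⟩ := X.pX_surj g
      have : φ.hom a ∈ Z := by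
        rw [← h]
        exact le_sup_left (a := K.map φ.hom) (Subgroup.mem_map_of_mem _ hg)
      exact ⟨_, this, φ.comm a⟩
  obtain ⟨p, hp, hu⟩ := X.fix F hZF hFΛ hFi hFZ
  refine ⟨p, ?_, ?_, ?_⟩
  · intro a
    refine hu _ ?_
    intro f hf
    have h1 : (φ.hom a)⁻¹ * f * φ.hom a ∈ F := by
      obtain ⟨y, hy, c, hc, rfl⟩ := Subgroup.mem_sup_of_normal_right.1 hf
      obtain ⟨k, hk, rfl⟩ := Subgroup.mem_map.1 hy
      have e : (φ.hom a)⁻¹ * (φ.hom k * c) * φ.hom a =
          φ.hom (a⁻¹ * k * a) * ((φ.hom a)⁻¹ * c * φ.hom a) := by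
        rw [map_mul, map_mul, map_inv]; group
      rw [e]
      refine mul_mem (le_sup_left (a := K.map φ.hom) (Subgroup.mem_map_of_mem _ ?_)) (hZF ?_)
      · have := hKn.conj_mem k hk a⁻¹
        simpa using this
      · have := hZn.conj_mem c hc (φ.hom a)⁻¹
        simpa using this
    have h2 := hp _ h1
    have e : f * φ.hom a = φ.hom a * ((φ.hom a)⁻¹ * f * φ.hom a) := by group
    show f • φ.hom a • p = φ.hom a • p
    rw [← mul_smul, e, mul_smul, h2]
  · intro p' hp'
    refine hu _ ?_
    intro f hf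
    obtain ⟨y, hy, c, hc, rfl⟩ := Subgroup.mem_sup_of_normal_right.1 hf
    obtain ⟨k, -, rfl⟩ := Subgroup.mem_map.1 hy
    rw [mul_smul, X.triv c hc, hp']
  · intro g hg
    obtain ⟨a, rfl⟩ := X.pX_surj g
    refine ⟨φ.hom a, ?_, ?_, φ.comm a⟩
    · exact hp _ (le_sup_left (a := K.map φ.hom) (Subgroup.mem_map_of_mem _ hg))
    · rw [φ.comm]; exact hg

/-- Step 4: every homomorphism is constant and comes from a point. -/
theorem main : ∃ p : P, (∀ a, φ.hom a • p = p) ∧
    (∀ p' : P, (∀ a, φ.hom a • p' = p') → p' = p) ∧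
    (∃ s : G →* B, Continuous s ∧ (∀ g, X.pY (s g) = g) ∧ (∀ a, φ.hom a = s (X.pX a))) ∧
    (∃ m : M, X.ind m = Quotient.mk _ φ) ∧
    (∀ g ∈ X.res.ker, ∃ b : B, b • p = p ∧ X.res (X.pY b) = 1 ∧ X.pY b = g) := by
  obtain ⟨p, hp, hpu, hp2⟩ := X.exists_point φ
  have hinj : ∀ b c : B, b • p = p → c • p = p → X.pY b = X.pY c → b = c := by
    intro b c hb hc h
    have h1 : b⁻¹ * c ∈ X.pY.ker := by
      rw [MonoidHom.mem_ker, map_mul, map_inv, h]; group
    have h2 : (b⁻¹ * c) • p = p := by
      rw [mul_smul, hc, inv_smul_eq_iff, hb]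
    have := X.free p _ h1 h2
    rwa [inv_mul_eq_one] at this
  let σ : G → B := fun g => φ.hom (Function.surjInv X.pX_surj g)
  have hσ : ∀ a, σ (X.pX a) = φ.hom a := by
    intro a
    refine hinj _ _ (hp _) (hp _) ?_
    rw [φ.comm, φ.comm]
    exact Function.surjInv_eq X.pX_surj _
  have hσY : ∀ g, X.pY (σ g) = g := by
    intro g
    show X.pY (φ.hom _) = g
    rw [φ.comm]
    exact Function.surjInv_eq X.pX_surj _
  have hσp : ∀ g, σ g • p = p := fun g => hp _
  let s : G →* B :=
    { toFun := σ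
      map_one' := by
        refine hinj _ _ (hσp _) (one_smul _ _) ?_
        rw [hσY, map_one]
      map_mul' := by
        intro g h
        refine hinj _ _ (hσp _) ?_ ?_
        · rw [mul_smul, hσp, hσp]
        · rw [hσY, map_mul, hσY, hσY] }
  have hscont : Continuous s := by
    have hq : Topology.IsQuotientMap X.pX :=
      X.pX_cont.isClosedMap.isQuotientMap X.pX_cont X.pX_surj
    rw [hq.continuous_iff]
    have : (s : G → B) ∘ X.pX = φ.hom := funext hσ
    rw [this]
    exact φ.cont
  refine ⟨p, hp, hpu, ⟨s, hscont, hσY, fun a => (hσ a).symm⟩, ?_, hp2⟩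
  obtain ⟨m, ψ, hm, hψ⟩ := X.pts p (fun g => ⟨σ g, hσp g, hσY g⟩)
  refine ⟨m, ?_⟩
  have : ψ.hom = φ.hom := by
    ext a
    refine hinj _ _ (hψ a) (hp a) ?_
    rw [φ.comm, ψ.comm]
  have h2 : ψ = φ := by
    cases ψ; cases φ; simp only at this; subst this; rfl
  rw [hm, h2]


/-- restriction of a global homomorphism to a place -/
theorem restrict {A' B' G' : Type} [Group A'] [TopologicalSpace A'] [Group B']
    [TopologicalSpace B'] [T2Space B'] [Group G'] (pA' : A' →* G') (pB' : B' →* G')
    (j : G →* G') (θ : A →* A') (β : B →* B') (hθ : Continuous θ) (hβ : Continuous β)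
    (h1 : ∀ a, pA' (θ a) = j (X.pX a))
    (h3 : ∀ b' g, pB' b' = j g → ∃! b : B, β b = b' ∧ X.pY b = g) (ψ : HomOver pA' pB') :
    ∃ φ : HomOver X.pX X.pY, ∀ a, β (φ.hom a) = ψ.hom (θ a) := by
  have hex : ∀ a : A, ∃! b : B, β b = ψ.hom (θ a) ∧ X.pY b = X.pX a := fun a =>
    h3 _ _ (by rw [ψ.comm, h1])
  choose f hf hu using hex
  have hf1 : ∀ a, β (f a) = ψ.hom (θ a) := fun a => (hf a).1
  have hf2 : ∀ a, X.pY (f a) = X.pX a := fun a => (hf a).2
  let F : A →* B :=
    { toFun := f
      map_one' := by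
        symm
        refine hu 1 1 ⟨?_, ?_⟩ <;> simp
      map_mul' := by
        intro a b
        symm
        refine hu (a * b) _ ⟨?_, ?_⟩
        · rw [map_mul, hf1, hf1, map_mul, map_mul]
        · rw [map_mul, hf2, hf2, map_mul] }
  have hF : Continuous F := by
    rw [continuous_iff_isClosed]
    intro C hC
    let S : Set (A × B) := {x | β x.2 = ψ.hom (θ x.1) ∧ X.pY x.2 = X.pX x.1 ∧ x.2 ∈ C}
    have hS : IsClosed S := by
      refine IsClosed.inter (isClosed_eq (hβ.comp continuous_snd)
        ((ψ.cont.comp hθ).comp continuous_fst)) (IsClosed.inter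
          (isClosed_eq (X.pY_cont.comp continuous_snd) (X.pX_cont.comp continuous_fst))
          (hC.preimage continuous_snd))
    have : F ⁻¹' C = Prod.fst '' S := by
      ext a
      constructor
      · intro h
        exact ⟨(a, f a), ⟨hf1 a, hf2 a, h⟩, rfl⟩
      · rintro ⟨⟨a', x⟩, ⟨e1, e2, e3⟩, rfl⟩
        show f a' ∈ C
        rw [← hu a' x ⟨e1, e2⟩]
        exact e3
    rw [this]
    exact isClosedMap_fst_of_compactSpace _ hS
  exact ⟨⟨F, hF, hf2⟩, hf1⟩


end Situation

/-- **Theorem.**  Let `π₁(X) → G_K ← π₁(Y)` be as in (G) or (L).  For every homomorphism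
`φ : π₁(X) → π₁(Y)` over `G_K` there is exactly one point `p` of `C~` which is fixed by the image
of `φ`; `φ` factors through `G_K`; and `φ` is induced by a `K`-morphism `X → Y`.  So the map (6)
is surjective, and bijective when it is injective (which is known in (G)).  If there is a
homomorphism at all then the monodromy group `Γ` is cyclic.  Moreover, if (in (L)) `A`, `B`, `G`
are the groups of `X`, `Y`, `K` obtained from `A'`, `B'`, `G'` by passage to a henselisation
`K` of `K'`, with a `K`-point `θ` of `X'`, then every homomorphism `A' → B'` over `G'` is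
geometric at this place, and there is none if `Y'` has no `K`-point. -/
theorem result (S : Situation A B G G₀ T P M ι) :
    (∀ φ : HomOver S.pX S.pY,
      (∃! p : P, ∀ a, φ.hom a • p = p) ∧
      (∃ s : G →* B, Continuous s ∧ (∀ g, S.pY (s g) = g) ∧ ∀ a, φ.hom a = s (S.pX a)) ∧
      ∃ m : M, S.ind m = Quotient.mk _ φ) ∧
    Function.Surjective S.ind ∧
    (Function.Injective S.ind → Function.Bijective S.ind) ∧
    (Nonempty (HomOver S.pX S.pY) → ∃ γ ∈ S.res.ker, ∀ g ∈ S.res.ker, ∃ n : ℤ,
      ∃ ν ∈ mon S.pY S.res, g = γ ^ n * ν) ∧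
    (∀ (A' B' G' : Type) [Group A'] [TopologicalSpace A'] [Group B'] [TopologicalSpace B']
      [T2Space B'] [Group G'] (pX' : A' →* G') (pY' : B' →* G') (j : G →* G') (θ : A →* A')
      (β : B →* B'), Continuous θ → Continuous β → (∀ a, pX' (θ a) = j (S.pX a)) →
      (∀ b' g, pY' b' = j g → ∃! b : B, β b = b' ∧ S.pY b = g) →
      (∀ ψ : HomOver pX' pY', ∃ φ : HomOver S.pX S.pY, ∃ m : M,
        S.ind m = Quotient.mk _ φ ∧ ∀ a, β (φ.hom a) = ψ.hom (θ a)) ∧
      (IsEmpty M → IsEmpty (HomOver pX' pY'))) := by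
  have hsurj : Function.Surjective S.ind := by
    intro c
    obtain ⟨φ, rfl⟩ := Quotient.exists_rep c
    obtain ⟨p, -, -, -, hm, -⟩ := S.main φ
    exact hm
  refine ⟨?_, hsurj, fun h => ⟨h, hsurj⟩, ?_, ?_⟩
  · intro φ
    obtain ⟨p, hp, hpu, hs, hm, -⟩ := S.main φ
    exact ⟨⟨p, hp, fun p' hp' => hpu p' hp'⟩, hs, hm⟩
  · rintro ⟨φ⟩
    obtain ⟨p, -, -, -, -, hp2⟩ := S.main φ
    obtain ⟨γ, hγ0, hγp, hγ⟩ := S.cyclic p
    refine ⟨S.pY γ, hγ0, ?_⟩
    intro g hg
    obtain ⟨b, hb, hb1, rfl⟩ := hp2 g hg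
    obtain ⟨n, c, hc, rfl⟩ := hγ b hb hb1
    exact ⟨n, S.pY c, Subgroup.mem_map_of_mem _ hc, by rw [map_mul, map_zpow]⟩
  · intro A' B' G' _ _ _ _ _ _ pX' pY' j θ β hθ hβ h1 h3
    have key : ∀ ψ : HomOver pX' pY', ∃ φ : HomOver S.pX S.pY, ∃ m : M,
        S.ind m = Quotient.mk _ φ ∧ ∀ a, β (φ.hom a) = ψ.hom (θ a) := by
      intro ψ
      obtain ⟨φ, hφ⟩ := S.restrict pX' pY' j θ β hθ hβ h1 h3 ψ
      obtain ⟨p, -, -, -, ⟨m, hm⟩, -⟩ := S.main φ
      exact ⟨φ, m, hm, hφ⟩
    refine ⟨key, fun hM => ⟨fun ψ => ?_⟩⟩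
    obtain ⟨φ, m, -⟩ := key ψ
    exact hM.elim m

end Main

end Pool.Agent.Results.MP_307582_ag.PotentiallyGoodSections
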